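import Mathlib

/-!
# Odd numbers which are not the distance from a power of two to the next odd semiprime

There is an arithmetic progression of odd numbers `k` such that no number `2 ^ n + k` is a semiprime.
The proof is a covering system in which every residue class modulo `5040` is covered twice: for every
`n` at least two of the `40` primes `p` below divide `2 ^ n + k`, and `k` is larger than their product.
-/

set_option autoImplicit false
set_option maxRecDepth 100000

namespace Pool.Agent.Results.MP_c49196_nt.DoubleCover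

/-- A product of two primes, not necessarily distinct. -/
def IsSemiprime (s : ℕ) : Prop := ∃ p q : ℕ, p.Prime ∧ q.Prime ∧ s = p * q

/-- The distance from `2 ^ n` to the smallest odd semiprime larger than `2 ^ n`. -/
noncomputable def a (n : ℕ) : ℕ := sInf {s : ℕ | 2 ^ n < s ∧ Odd s ∧ IsSemiprime s} - 2 ^ n

/-- the covering system: triples `(o, p, c)`; the order of `2` modulo `p` is `o`, and `p` divides
`2 ^ n + k` for all `n` congruent to `c` modulo `o` -/
def D : List (ℕ × ℕ × ℕ) :=
  [(2, 3, 1), (3, 7, 1), (4, 5, 0), (5, 31, 2), (7, 127, 4),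
   (8, 17, 6), (9, 73, 5), (10, 11, 6), (12, 13, 9), (14, 43, 6),
   (15, 151, 9), (16, 257, 2), (18, 19, 11), (20, 41, 18), (24, 241, 3),
   (28, 29, 22), (28, 113, 26), (30, 331, 0), (35, 71, 28), (36, 37, 17),
   (36, 109, 35), (40, 61681, 34), (42, 5419, 38), (45, 631, 35), (45, 23311, 20),
   (48, 97, 39), (48, 673, 15), (60, 61, 44), (60, 1321, 48), (63, 92737, 44),
   (63, 649657, 2), (70, 281, 0), (70, 86171, 8), (72, 433, 66), (72, 38737, 42),
   (84, 1429, 14), (84, 14449, 68), (105, 106681, 10), (112, 5153, 58), (144, 577, 90)]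

/-- the first term of the arithmetic progression -/
def k₀ : ℕ := 53123037558264751010353891520788834380588148290593942916288104914575420417289811592329233647406034393179

/-- the difference of the arithmetic progression -/
def M : ℕ := 59170928435458971233045524113870174683537956265550962449801491008374804425462634003190407554176681213490

/-- the properties of the triples -/
def good (e : ℕ × ℕ × ℕ) : Bool :=
  (5040 % e.1 == 0) && (2 ^ e.1 % e.2.1 == 1) && ((2 ^ e.2.2 + k₀) % e.2.1 == 0) &&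
    (M % e.2.1 == 0) && Nat.blt 1 e.2.1 && Nat.blt e.2.1 1000000

/-- the class of `r` is covered twice -/
def twice (r : ℕ) : Bool :=
  match D.filter (fun e => r % e.1 == e.2.2) with
  | x :: y :: _ => Nat.gcd x.2.1 y.2.1 == 1
  | _ => false

theorem good_all : D.all good = true := by decide +kernel

theorem twice_all : (List.range 5040).all twice = true := by decide +kernel

theorem dvd_of_good {e : ℕ × ℕ × ℕ} (he : good e = true) {n t : ℕ} (hn : n % e.1 = e.2.2) :
    e.2.1 ∣ 2 ^ n + (k₀ + M * t) := by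
  simp only [good, Bool.and_eq_true, beq_iff_eq] at he
  obtain ⟨⟨⟨⟨⟨h1, h2⟩, h3⟩, h4⟩, h5⟩, h6⟩ := he
  have h7 : 2 ^ n ≡ 2 ^ e.2.2 [MOD e.2.1] := by
    conv_lhs => rw [← Nat.div_add_mod n e.1, pow_add, pow_mul, hn]
    have h8 : 2 ^ e.1 ≡ 1 [MOD e.2.1] := by
      have h9 : 1 < e.2.1 := by simpa using h5
      unfold Nat.ModEq
      rw [h2, Nat.mod_eq_of_lt h9]
    have h10 := (h8.pow (n / e.1)).mul_right (2 ^ e.2.2)
    simpa using h10
  have h11 : 2 ^ n + (k₀ + M * t) ≡ 2 ^ e.2.2 + (k₀ + 0 * t) [MOD e.2.1] :=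
    h7.add ((Nat.ModEq.refl _).add (Nat.ModEq.mul_right _ (by
      unfold Nat.ModEq
      rw [h4, Nat.zero_mod])))
  rw [zero_mul, add_zero] at h11
  refine (Nat.modEq_zero_iff_dvd).1 (h11.trans ?_)
  unfold Nat.ModEq
  rw [h3, Nat.zero_mod]

theorem eq_mul_of_dvd {P Q x y N : ℕ} (hP : P.Prime) (hQ : Q.Prime) (hN : N = P * Q)
    (hx : x ∣ N) (hy : y ∣ N) (hx1 : 1 < x) (hy1 : 1 < y) (hxy : Nat.Coprime x y) :
    N = x * y := by
  have h1 : x * y ∣ N := hxy.mul_dvd_of_dvd_of_dvd hx hy
  obtain ⟨m, hm⟩ := h1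
  have hN0 : N ≠ 0 := by
    rw [hN]
    exact Nat.mul_ne_zero hP.ne_zero hQ.ne_zero
  have hm0 : m ≠ 0 := by
    rintro rfl
    exact hN0 (by rw [hm, mul_zero])
  have hx0 : x ≠ 0 := by omega
  have hy0 : y ≠ 0 := by omega
  have h2 : ArithmeticFunction.cardFactors N = 2 := by
    rw [hN, ArithmeticFunction.cardFactors_mul hP.ne_zero hQ.ne_zero,
      ArithmeticFunction.cardFactors_apply_prime hP, ArithmeticFunction.cardFactors_apply_prime hQ]
  have h3 : ArithmeticFunction.cardFactors N = ArithmeticFunction.cardFactors x +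
      ArithmeticFunction.cardFactors y + ArithmeticFunction.cardFactors m := by
    rw [hm, ArithmeticFunction.cardFactors_mul (Nat.mul_ne_zero hx0 hy0) hm0,
      ArithmeticFunction.cardFactors_mul hx0 hy0]
  have h4 : ∀ z : ℕ, 1 < z → 0 < ArithmeticFunction.cardFactors z := by
    intro z hz
    rw [ArithmeticFunction.cardFactors_apply]
    exact List.length_pos_of_mem ((Nat.mem_primeFactorsList (by omega)).2
      ⟨Nat.minFac_prime (by omega), Nat.minFac_dvd z⟩)
  have h5 := h4 x hx1
  have h6 := h4 y hy1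
  have h7 : ¬ 1 < m := by
    intro h
    have := h4 m h
    omega
  have h8 : m = 1 := by omega
  rw [hm, h8, mul_one]

/-- No term of the arithmetic progression plus a power of two is a semiprime. -/
theorem not_semiprime (n t : ℕ) : ¬ IsSemiprime (2 ^ n + (k₀ + M * t)) := by
  rintro ⟨P, Q, hP, hQ, hN⟩
  have h1 : twice (n % 5040) = true :=
    List.all_eq_true.1 twice_all _ (List.mem_range.2 (Nat.mod_lt _ (by norm_num)))
  unfold twice at h1
  split at h1
  · rename_i x y l hl
    have hx : x ∈ D ∧ (n % 5040 % x.1 == x.2.2) = true := by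
      have : x ∈ D.filter (fun e => n % 5040 % e.1 == e.2.2) := by rw [hl]; simp
      exact List.mem_filter.1 this
    have hy : y ∈ D ∧ (n % 5040 % y.1 == y.2.2) = true := by
      have : y ∈ D.filter (fun e => n % 5040 % e.1 == e.2.2) := by rw [hl]; simp
      exact List.mem_filter.1 this
    have key : ∀ e : ℕ × ℕ × ℕ, e ∈ D ∧ (n % 5040 % e.1 == e.2.2) = true →
        e.2.1 ∣ 2 ^ n + (k₀ + M * t) ∧ 1 < e.2.1 ∧ e.2.1 < 1000000 := by
      rintro e ⟨he, he2⟩
      have hg : good e = true := List.all_eq_true.1 good_all _ he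
      have hg' := hg
      simp only [good, Bool.and_eq_true, beq_iff_eq] at hg
      obtain ⟨⟨⟨⟨⟨h1, h2⟩, h3⟩, h4⟩, h5⟩, h6⟩ := hg
      refine ⟨dvd_of_good hg' ?_, by simpa using h5, by simpa using h6⟩
      rw [beq_iff_eq, Nat.mod_mod_of_dvd _ (Nat.dvd_of_mod_eq_zero h1)] at he2
      exact he2
    obtain ⟨a1, a2, a3⟩ := key x hx
    obtain ⟨b1, b2, b3⟩ := key y hy
    have h2 := eq_mul_of_dvd hP hQ hN a1 b1 a2 b2 (by simpa using h1)
    have h3 : x.2.1 * y.2.1 ≤ 1000000 * 1000000 := Nat.mul_le_mul a3.le b3.le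
    have h4 : 1000000 * 1000000 < k₀ := by norm_num [k₀]
    have h5 : k₀ ≤ 2 ^ n + (k₀ + M * t) := by
      rw [add_left_comm]
      exact Nat.le_add_right _ _
    rw [h2] at h5
    exact absurd (h5.trans h3) (not_le.2 h4)
  · exact absurd h1 (by simp)

theorem exists_odd_semiprime (n : ℕ) :
    {s : ℕ | 2 ^ n < s ∧ Odd s ∧ IsSemiprime s}.Nonempty := by
  obtain ⟨p, hp1, hp⟩ := Nat.exists_infinite_primes (2 ^ n + 3)
  have h0 : 0 < 2 ^ n := by positivity
  have h3 : p ≠ 2 := by omega
  refine ⟨3 * p, by omega, ?_, 3, p, Nat.prime_three, hp, rfl⟩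
  exact (by decide : Odd 3).mul (hp.odd_of_ne_two h3)

/-- There is an arithmetic progression `k + M t` of odd numbers none of which is a value of `a`: no
number `2 ^ n + (k + M t)` is a semiprime. -/
theorem result :
    ∃ k M : ℕ, Odd k ∧ Even M ∧ 0 < M ∧
      ∀ t n : ℕ, ¬ IsSemiprime (2 ^ n + (k + M * t)) ∧ a n ≠ k + M * t := by
  have hk : Odd k₀ := by
    rw [Nat.odd_iff]
    norm_num [k₀]
  have hM : Even M := by
    rw [Nat.even_iff]
    norm_num [M]
  have hM0 : 0 < M := by norm_num [M]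
  have h : ∀ t n : ℕ, a n ≠ k₀ + M * t := by
    intro t n hn
    have h1 := Nat.sInf_mem (exists_odd_semiprime n)
    have h2 : sInf {s : ℕ | 2 ^ n < s ∧ Odd s ∧ IsSemiprime s} = 2 ^ n + (k₀ + M * t) := by
      have h3 : 2 ^ n < sInf {s : ℕ | 2 ^ n < s ∧ Odd s ∧ IsSemiprime s} := h1.1
      unfold a at hn
      omega
    rw [h2] at h1
    exact not_semiprime n t h1.2.2
  exact ⟨k₀, M, hk, hM, hM0, fun t n => ⟨not_semiprime n t, h t n⟩⟩

end Pool.Agent.Results.MP_c49196_nt.DoubleCover
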